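import Mathlib

/-!
# Polynomials over `F_p` of degree below `(p-1)/2` with range sum `k p`

The quadratic character `χ` of `F_p` is the polynomial function `x ^ ((p-1)/2)`. Its `m`-th forward
difference is a polynomial of degree exactly `(p-1)/2 - m`, its values are (residues of) integers of
absolute value at most `2 ^ m`, and these integers add up to zero. Adding the constant `k ≥ 2 ^ m`
gives a polynomial with range sum exactly `k p` as soon as `k + 2 ^ m < p`.
-/

set_option autoImplicit false

namespace Pool.Agent.Results.MP_1e20d6_nt.SmallDegreeRangeSum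

open Polynomial

/-- The range sum of `P`: the sum over all `x ∈ F_p` of the values `P(x)`, each value read as its
representative in `{0, ..., p - 1}` and the sum taken in the natural numbers. -/
def rangeSum (p : ℕ) [Fact p.Prime] (P : (ZMod p)[X]) : ℕ := ∑ x : ZMod p, (P.eval x).val

/-- A forward difference lowers the degree by exactly one in degrees `1, ..., p - 1`. -/
theorem natDegree_diff {p : ℕ} [Fact p.Prime] (Q : (ZMod p)[X]) (n : ℕ) (hn : Q.natDegree = n + 1)
    (hp : n + 1 < p) : (Q.comp (X + 1) - Q).natDegree = n := by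
  have hcomp : (Q.comp (X + 1)).natDegree = n + 1 := by
    rw [natDegree_comp, hn]
    have : (X + 1 : (ZMod p)[X]).natDegree = 1 := by
      have := natDegree_X_add_C (1 : ZMod p)
      simpa using this
    rw [this, mul_one]
  have htay : Q.comp (X + 1) = taylor 1 Q := by
    rw [taylor_apply]; simp
  have hcoeff : ∀ i, (Q.comp (X + 1)).coeff i = (hasseDeriv i Q).eval 1 := by
    intro i
    rw [htay, taylor_coeff]
  have hlead : (Q.comp (X + 1) - Q).coeff (n + 1) = 0 := by
    rw [coeff_sub, hcoeff]
    have h1 : hasseDeriv (n + 1) Q = C (Q.coeff (n + 1)) := by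
      ext j
      rw [hasseDeriv_coeff, coeff_C]
      by_cases hj : j = 0
      · subst hj; simp
      · rw [if_neg hj, coeff_eq_zero_of_natDegree_lt (by omega), mul_zero]
    rw [h1, eval_C, sub_self]
  have hnext : (Q.comp (X + 1) - Q).coeff n = (n + 1 : ℕ) * Q.coeff (n + 1) := by
    rw [coeff_sub, hcoeff]
    have h1 : hasseDeriv n Q = C (Q.coeff n) + C (((n + 1 : ℕ) : ZMod p) * Q.coeff (n + 1)) * X := by
      ext j
      rw [hasseDeriv_coeff, coeff_add, coeff_C, coeff_C_mul, coeff_X]
      rcases j with _ | _ | j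
      · simp
      · simp only [zero_add, Nat.add_comm 1 n]
        simp
      · rw [coeff_eq_zero_of_natDegree_lt (by omega)]
        simp
    rw [h1]
    simp
  have hle : (Q.comp (X + 1) - Q).natDegree ≤ n := by
    rw [natDegree_le_iff_coeff_eq_zero]
    intro N hN
    rcases Nat.lt_or_ge (n + 1) N with h | h
    · rw [coeff_sub, coeff_eq_zero_of_natDegree_lt (by omega),
        coeff_eq_zero_of_natDegree_lt (by omega), sub_zero]
    · have : N = n + 1 := by omega
      rw [this, hlead]
  refine le_antisymm hle (le_natDegree_of_ne_zero ?_)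
  rw [hnext]
  refine mul_ne_zero ?_ ?_
  · rw [Ne, ZMod.natCast_eq_zero_iff]
    intro h
    exact absurd (Nat.le_of_dvd (Nat.succ_pos n) h) (by omega)
  · have : Q.coeff (n + 1) = Q.leadingCoeff := by rw [leadingCoeff, hn]
    rw [this]
    exact leadingCoeff_ne_zero.mpr (by rintro rfl; simp at hn)

/-- The `m`-th difference of `x ^ ((p-1)/2)` together with its integral values. -/
theorem exists_diff (p : ℕ) [Fact p.Prime] (hp2 : p ≠ 2) (m : ℕ) (hm : m ≤ (p - 1) / 2) :
    ∃ (Q : (ZMod p)[X]) (q : ZMod p → ℤ), Q.natDegree = (p - 1) / 2 - m ∧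
      (∀ x, Q.eval x = (q x : ZMod p)) ∧ (∀ x, |q x| ≤ 2 ^ m) ∧ ∑ x, q x = 0 := by
  have hp : p.Prime := Fact.out
  induction m with
  | zero =>
    refine ⟨X ^ ((p - 1) / 2), fun x => quadraticChar (ZMod p) x, by simp, ?_, ?_, ?_⟩
    · intro x
      have hodd : p % 2 = 1 := hp.eq_two_or_odd.resolve_left hp2
      have h := quadraticChar_eq_pow_of_char_ne_two' (F := ZMod p)
        (by rw [ZMod.ringChar_zmod_n]; exact hp2) x
      rw [h, ZMod.card]
      simp only [eval_pow, eval_X]
      congr 1
      omega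
    · intro x
      have := quadraticChar_isQuadratic (ZMod p) x
      rcases this with h | h | h <;> simp [h]
    · exact quadraticChar_sum_zero (by rw [ZMod.ringChar_zmod_n]; exact hp2)
  | succ m ih =>
    obtain ⟨Q, q, h1, h2, h3, h4⟩ := ih (by omega)
    refine ⟨Q.comp (X + 1) - Q, fun x => q (x + 1) - q x, ?_, ?_, ?_, ?_⟩
    · have hpos : 2 ≤ p := hp.two_le
      have := natDegree_diff Q ((p - 1) / 2 - (m + 1)) (by omega) (by omega)
      exact this
    · intro x
      simp [eval_comp, h2]
    · intro x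
      have a := h3 (x + 1)
      have b := h3 x
      rw [abs_le] at a b ⊢
      rw [pow_succ]
      constructor <;> linarith [a.1, a.2, b.1, b.2]
    · rw [Finset.sum_sub_distrib, h4]
      have : ∑ x, q (x + 1) = ∑ x, q x := Equiv.sum_comp (Equiv.addRight (1 : ZMod p)) q
      rw [this, h4, sub_self]

/-- **Main theorem.** Let `m ≥ 1`, `k ≥ 2 ^ m` and let `p > k + 2 ^ m` be a prime. There is a
nonconstant polynomial `P` over `F_p` of degree exactly `(p - 1) / 2 - m` with range sum `k p`. It
satisfies neither of the two alternatives of Q1: it is not of the form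
`c ((a x + b) ^ ((p - 1) / 2) + 1) + d`, and its degree is not larger than `(p - 1) / 2`.
(For `m = 1` this covers every `k ≥ 2` and every prime `p > k + 2`.) -/
theorem result (m k p : ℕ) [Fact p.Prime] (hm1 : 1 ≤ m) (hmk : 2 ^ m ≤ k) (hkp : k + 2 ^ m < p) :
    ∃ P : (ZMod p)[X], rangeSum p P = k * p ∧ 0 < P.natDegree ∧ P.natDegree = (p - 1) / 2 - m ∧
      (¬ ∃ a b c d : ZMod p, a ≠ 0 ∧ P = C c * ((C a * X + C b) ^ ((p - 1) / 2) + 1) + C d) ∧
      ¬ ((p - 1) / 2 < P.natDegree) := by
  have hm2 : m < 2 ^ m := Nat.lt_two_pow_self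
  have hpos : 1 ≤ 2 ^ m := Nat.one_le_two_pow
  have hp2 : p ≠ 2 := by omega
  have hm : m < (p - 1) / 2 := by omega
  obtain ⟨Q, q, h1, h2, h3, h4⟩ := exists_diff p hp2 m hm.le
  have hval : ∀ x, (((Q + C (k : ZMod p)).eval x).val : ℤ) = q x + k := by
    intro x
    have hb := abs_le.mp (h3 x)
    have h5 : (Q + C (k : ZMod p)).eval x = ((q x + k : ℤ) : ZMod p) := by
      simp [h2]
    rw [h5, ZMod.val_intCast]
    apply Int.emod_eq_of_lt
    · have : ((2 : ℤ) ^ m) ≤ k := by exact_mod_cast hmk
      linarith [hb.1]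
    · have : (k : ℤ) + 2 ^ m < p := by exact_mod_cast hkp
      linarith [hb.2]
  have hdeg : (Q + C (k : ZMod p)).natDegree = (p - 1) / 2 - m := by
    rw [natDegree_add_C, h1]
  refine ⟨Q + C (k : ZMod p), ?_, by omega, hdeg, ?_, by omega⟩
  · have : ((rangeSum p (Q + C (k : ZMod p)) : ℕ) : ℤ) = ((k * p : ℕ) : ℤ) := by
      unfold rangeSum
      push_cast
      rw [Finset.sum_congr rfl (fun x _ => hval x), Finset.sum_add_distrib, h4]
      simp [ZMod.card, mul_comm]
    exact_mod_cast this
  · rintro ⟨a, b, c, d, ha, h⟩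
    rw [h] at hdeg
    by_cases hc : c = 0
    · subst hc
      simp at hdeg
      omega
    · have hlin : (C a * X + C b : (ZMod p)[X]).natDegree = 1 := natDegree_linear ha
      have : (C c * ((C a * X + C b) ^ ((p - 1) / 2) + 1) + C d : (ZMod p)[X]).natDegree
          = (p - 1) / 2 := by
        rw [natDegree_add_C, natDegree_C_mul hc]
        have h1' : ((C a * X + C b : (ZMod p)[X]) ^ ((p - 1) / 2) + 1) =
            (C a * X + C b) ^ ((p - 1) / 2) + C 1 := by simp
        rw [h1', natDegree_add_C, natDegree_pow, hlin, mul_one]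
      rw [this] at hdeg
      omega

end Pool.Agent.Results.MP_1e20d6_nt.SmallDegreeRangeSum
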